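import Mathlib
import Pool.Graph.R_pool_sql_team_seeded_63374d34.N792.QB
import Pool.Graph.R_pool_sql_team_seeded_63374d34.N792.QD
import Pool.Graph.R_seed8.H373R2.T7.Vau
import Pool.Graph.R_seed8.Helper112.PairSieve

/-!
Project PH: a positive proportion of the constant terms `c ≤ C`, `C ≥ x^(1/2+ε)`. Statements of the lemmas.
-/

set_option autoImplicit false

namespace Pool.Agent.H568.PH

open Finset Filter Topology Pool.Agent.N792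
open Pool.Agent.H469R2.NK (e)
open ArithmeticFunction (moebius vonMangoldt)

/-- TASK SP.  The spacing of the numbers `h √r` (symmetric form).
Proof. For `Δ ≥ 1` the number is at most `(H J)² ≤ Δ (H J)²`. Sort the quadruples by `d = gcd(h, h') < 2 H`, `g = gcd(r, r') ≤ 2 J`;
`h = d a, h' = d b, r = g u, r' = g v`. The condition, divided by `h'² r ≥ H² J`, gives `|(a/b)² - v/u| ≤ Δ`. There are at most
`(2H/d + ..)²`, precisely `≤ 9 H²/d²`, pairs `(a, b)` (`#{h in [H, 2H) : d ∣ h} ≤ H/d + 1 ≤ 3 H/d`), and the numbers `(a/b)²` for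
different coprime pairs differ by at least `|a/b - a'/b'| * 1 ≥ 1/(b b') ≥ d²/(4H²)` (all `a/b > 1/2`). There are at most `9 J²/g²` pairs
`(u, v)`, and the numbers `v/u` for different coprime pairs differ by at least `g²/(4J²)`. An interval of length `2Δ` contains at most
`1 + 8 Δ J²/g²` of the numbers `v/u`, resp. `1 + 8 Δ H²/d²` of the numbers `(a/b)²`. So for given `d, g` there are at most
`min(9H²/d² (1 + 8ΔJ²/g²), 9J²/g² (1 + 8ΔH²/d²)) ≤ 9 H J/(d g) + 72 Δ H²J²/(d²g²)` quadruples. Sum over `d ≤ 2H`, `g ≤ 2J`. -/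
def S_SP : Prop := ∃ C1 : ℝ, 0 < C1 ∧ ∀ (H J : ℕ) (Δ : ℝ), 1 ≤ H → 1 ≤ J → 0 ≤ Δ →
  (#(((Ico H (2 * H) ×ˢ Ioc J (2 * J)) ×ˢ (Ico H (2 * H) ×ˢ Ioc J (2 * J))).filter (fun v : (ℕ × ℕ) × (ℕ × ℕ) =>
    |(v.1.1 : ℝ) ^ 2 * v.1.2 - (v.2.1 : ℝ) ^ 2 * v.2.2| ≤ Δ * ((H : ℝ) ^ 2 * J))) : ℝ) ≤
    C1 * ((H : ℝ) * J * (1 + Real.log (H * J)) ^ 2 + Δ * ((H : ℝ) * J) ^ 2)

/-- TASK BL.  Blocks of frequencies, by the double large sieve, with coefficients.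
Proof. Model: `Pool/Agent/H568/LB/P/BLK.lean` (in the archive) and `bsj` in N792/QB.lean. Put `θ = 1 / √a`, `Y = θ √2 √K`. Points
`x_(h,r) = h √r`, coefficients `ω h * α r`; `y_s = θ √s ≤ Y`, coefficients `β s`. `x 4 Y ≤ 16 θ H √(J K) < J'` with
`J' = ⌊16 θ H √(J K)⌋ + 1`. Spacing: `|h √r - h' √r'| ≤ 1 / (4 Y)` gives `|h² r - h'² r'| ≤ 4 H √2 √J / (4 Y) = H √a √(J / K) = Δ H² J`
with `Δ = √a / (H √(J K))`; so by `S_SP` the number of the close pairs is `≤ C1 (1 + √a) H J (1 + log (H J))²` (as `J ≤ K`).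
Grid sum: `grid_sqrt` (QB.lean) with `q = 1`: `≤ J' * (3 K (4 J' + 128 K))`. Then `Pool.Agent.H373R2.T4.dls` gives
`‖..‖² ≤ 25 C1 (1 + √a) H J (1 + log)² * 3 K (4 J' + 128 K) ≤ C (1 + log)² (H² J K x + H J K²) ≤ C' (1 + log)² (H² x³ + H K x²)`
(`√(J K) ≤ m x`); take the square root. -/
def S_BL : Prop := S_SP → ∀ a m : ℕ, 1 ≤ a → 1 ≤ m → ∃ C2 : ℝ, 0 < C2 ∧ ∀ x J K : ℕ, 1 ≤ x → 1 ≤ J → J ≤ K →
  (J : ℝ) * K ≤ m * (x : ℝ) ^ 2 → ∀ α β : ℕ → ℂ, (∀ r, ‖α r‖ ≤ 1) → (∀ s, ‖β s‖ ≤ 1) →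
  ∀ (H : ℕ) (ω : ℕ → ℂ), 1 ≤ H → (∀ h, ‖ω h‖ ≤ 1) →
  ‖∑ h ∈ Ico H (2 * H), ω h * ∑ r ∈ Ioc J (2 * J), ∑ s ∈ Ioc K (2 * K), α r * β s * e (h / √(a : ℝ) * (√(r : ℝ) * √(s : ℝ)))‖ ≤
    C2 * (1 + Real.log (H * J)) * ((x : ℝ) ^ (3 / 2 : ℝ) * H + x * √((H : ℝ) * K))

/-- TASK Q5.  Sums over the triangle function from bounds for blocks of frequencies; `w` real.
Proof. As `q4` in N792/QD.lean: `tri δ θ = δ + ∑_{h ≥ 1} 2 c_h cos (2 π h θ)`, `0 ≤ c_h ≤ min (δ, 1 / (π² h² δ))`. Blocks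
`H = 2^j ≤ Km`: `2 max c_h (A H + B √H)`; the sum over `H` of `min (δ, 1 / (π² H² δ)) H` is `≤ 3` and that of
`min (δ, 1 / (π² H² δ)) √H` is `≤ 6 √δ`. The frequencies `> Km`: trivially `≤ 2 D / (δ Km)`. -/
def S_Q5 : Prop := ∀ (s : Finset (ℕ × ℕ)) (w θ : ℕ × ℕ → ℝ) (δ A B D : ℝ) (Km : ℕ), 0 < δ → δ ≤ 1 / 2 → 1 ≤ Km →
    0 ≤ A → 0 ≤ B → 0 ≤ D →
    (∀ (H : ℕ) (ω : ℕ → ℂ), 1 ≤ H → H ≤ Km → (∀ h, ‖ω h‖ ≤ 1) →
      ‖∑ h ∈ Ico H (2 * H), ω h * ∑ i ∈ s, (w i : ℂ) * e (h * θ i)‖ ≤ A * H + B * √(H : ℝ)) →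
    (∀ h : ℕ, ‖∑ i ∈ s, (w i : ℂ) * e (h * θ i)‖ ≤ D) →
    |∑ i ∈ s, w i * tri δ (θ i) - δ * ∑ i ∈ s, w i| ≤ 100 * (A + B * √δ + D / (δ * Km))

/-- TASK TT.  Bilinear sums over the triangle function.
Proof. By symmetry (`sum_comm`) let `J ≤ K`. Apply `S_Q5` with the index set `Ioc J (2 J) ×ˢ Ioc K (2 K)`, `w i = α i.1 * β i.2`,
`θ i = √(i.1 * i.2 / a) - β0`, `Km = x ^ 4`. Since `e (h (θ - β0)) = e (h θ) e (- h β0)`, the block bound is `S_BL` with `ω h e (- h β0)` in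
place of `ω h`; for `H ≤ x ^ 4` is `1 + log (H J) ≤ C log x`, so `A = C log x * x^(3/2)`, `B = C log x * x √K`; `D = J K ≤ m x²`, and
`D / (δ Km) ≤ m x² x / x⁴`. -/
def S_TT : Prop := S_SP → S_BL → S_Q5 → ∀ a m : ℕ, 1 ≤ a → 1 ≤ m → ∃ C3 : ℝ, 0 < C3 ∧ ∀ x J K : ℕ, 2 ≤ x → 1 ≤ J → 1 ≤ K →
  (J : ℝ) * K ≤ m * (x : ℝ) ^ 2 → ∀ α β : ℕ → ℝ, (∀ r, |α r| ≤ 1) → (∀ s, |β s| ≤ 1) →
  ∀ β0 δ : ℝ, 1 / (x : ℝ) ≤ δ → δ ≤ 1 / 2 →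
  |∑ r ∈ Ioc J (2 * J), ∑ s ∈ Ioc K (2 * K), α r * β s * (tri δ (√(((r * s : ℕ) : ℝ) / a) - β0) - δ)| ≤
    C3 * Real.log x * ((x : ℝ) ^ (3 / 2 : ℝ) + x * √(δ * (max J K : ℕ)))

/-- TASK CUT.  Removal of a condition `s ≤ t r` from a bilinear form.
Proof. We may take `t r ∈ [K, 2K]`. For `l = s - K`, `t' = t r - K` in `[0, K]`, `l ≥ 1`:
`[l ≤ t'] = (1/K) ∑_{ν < K} ∑_{u=1}^{t'} cos (2 π ν (l - u) / K)`, and the cosine is `cos cos + sin sin`, so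
`[l ≤ t'] = (1/K) ∑_ν (cos (2πνl/K) C_ν(t') + sin (2πνl/K) S_ν(t'))`, where `|C_ν|, |S_ν| ≤ |∑_{u ≤ t'} e(νu/K)|` is `≤ K` for `ν = 0` and
`≤ K / (2 min (ν, K - ν))` for `ν ≥ 1`. Apply the hypothesis to `α r * C_ν(t r) / bound` and `β s cos (..)` and sum over `ν`:
`≤ (1 + 2 ∑_{1 ≤ ν < K} 1 / (2 min (ν, K - ν))) B ≤ 8 (1 + log K) B`. -/
def S_CUT : Prop := ∀ (J K : ℕ) (F : ℕ → ℕ → ℝ) (B : ℝ), 1 ≤ K →
  (∀ α β : ℕ → ℝ, (∀ r, |α r| ≤ 1) → (∀ s, |β s| ≤ 1) → |∑ r ∈ Ioc J (2 * J), ∑ s ∈ Ioc K (2 * K), α r * β s * F r s| ≤ B) →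
  ∀ α β : ℕ → ℝ, (∀ r, |α r| ≤ 1) → (∀ s, |β s| ≤ 1) → ∀ t : ℕ → ℕ,
  |∑ r ∈ Ioc J (2 * J), ∑ s ∈ (Ioc K (2 * K)).filter (fun s => s ≤ t r), α r * β s * F r s| ≤ 8 * (1 + Real.log K) * B

/-- TASK TY.  Linear sums over the triangle function, trivially.
Proof. Let `F t = tri δ (√(j t / a) - β0)` for real `t ≥ 0`. It is a sum of disjoint bumps (one for each integer `n` with `n + β0 ≥ -1`,
increasing from `0` to `1` and then decreasing to `0`), and for `t ≤ m x² / j` there are at most `C x` bumps. On a piece where `F` is monotone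
the sum over the integers `l` differs from the integral by at most `1` (or `2` at the ends); so the sum over `l ∈ (N/j, b]` is
`∫ F + O(x)`. With `t = a s² / j`, `dt = (2 a / j) s ds`, and `∫_{y}^{y+1} tri δ (s - β0) ds = δ`, one gets
`∫ F = ∑ over unit intervals of s of (2 a / j) (s δ + O(1))= δ (length) + O(x)`. (Any other proof is fine, for example with
`tri δ θ = (1/δ) ∫_0^δ [‖θ‖ < u] du` and counting, or by subdividing `[N/j, b]` at the points `t` with `√(j t / a) - β0 ∈ (1/2) ℤ`.) -/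
def S_TY : Prop := ∀ a m : ℕ, 1 ≤ a → 1 ≤ m → ∃ C4 : ℝ, 0 < C4 ∧ ∀ x : ℕ, 1 ≤ x → ∀ N b j : ℕ, 1 ≤ j → j ≤ x →
  (N : ℝ) ≤ m * (x : ℝ) ^ 2 → ((j * b : ℕ) : ℝ) ≤ m * (x : ℝ) ^ 2 → ∀ β0 δ : ℝ, 0 < δ → δ ≤ 1 / 2 →
  |∑ l ∈ Ioc (N / j) b, (tri δ (√(((j * l : ℕ) : ℝ) / a) - β0) - δ)| ≤ C4 * x

/-- TASK VA.  Vaughan's method, with bounded coefficients.
Proof. `vaughan_sum` in Pool/Graph/R_seed8/H373R2/T3/TypeI.lean (with `U = V`), as in `vaughan_gen` (R_seed8/H373R2/T7/Vau.lean), but with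
`V` and not `V * V` as the limit of the type I sums. First part: dyadic blocks, `|betaV V m| ≤ #m.divisors ≤ D`, `Λ l ≤ log l`. Second
part (`mu1 V`, `m ≤ V`): partial summation for the factor `log l`. Third part: for `m ≤ V` by `hI`; for `V < m ≤ V²` by dyadic blocks,
`|(mu1 V * l1 V) m| ≤ log m`, and `l > N / m ≥ V`. -/
def S_VA : Prop := ∀ (E : ℕ → ℝ) (N N' V : ℕ), 1 ≤ N → N ≤ N' → N' ≤ 2 * N → 1 ≤ V → V ^ 3 ≤ N → ∀ Y R D : ℝ,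
  0 ≤ Y → 0 ≤ R → (∀ n : ℕ, 1 ≤ n → n ≤ N' → (#n.divisors : ℝ) ≤ D) →
  (∀ j ∈ Icc 1 V, ∀ b : ℕ, b ≤ N' / j → |∑ l ∈ Ioc (N / j) b, E (j * l)| ≤ Y) →
  (∀ α β : ℕ → ℝ, (∀ r, |α r| ≤ 1) → (∀ s, |β s| ≤ 1) → ∀ J K : ℕ, 1 ≤ J → 1 ≤ K → V < 2 * J → V < 2 * K → J * K ≤ N' →
    |∑ r ∈ Ioc J (2 * J), ∑ s ∈ Ioc K (2 * K), α r * β s * (if N < r * s ∧ r * s ≤ N' then E (r * s) else 0)| ≤ R) →
  |∑ n ∈ Ioc N N', vonMangoldt n * E n| ≤ 100 * (1 + Real.log (4 * N)) ^ 4 * (D * R + V * Y)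

/-- TASK PSI.  Chebyshev (or the prime number theorem of the library; search for `Tendsto (fun .. => ψ .. / ..)`, or Mathlib's
`Chebyshev` file). -/
def S_PSI : Prop := ∃ c5 : ℝ, 0 < c5 ∧ ∃ N0 : ℕ, ∀ N : ℕ, N0 ≤ N → c5 * N ≤ ∑ n ∈ Ioc N (2 * N), vonMangoldt n

/-- TASK FE.  The values of the polynomial: a number `N` in the right range with `tri > 0` is a value with small constant term `σ c`.
Proof. `√(N/a) - β0 = n + θ` with an integer `n` and `|θ| < δ`, so `√(N/a) = n + b/(2a) + t`, `t = 2 σ δ + θ`, `σ t ∈ (δ, 3 δ)`, and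
`N = a n² + b n + c'` with `c' = b²/(4a) + 2 a (n + b/(2a)) t + a t²`, an integer as `N` is. `√(N/a) ∈ [x/3, x/2]`, so for large `x`:
`x/4 ≤ n ≤ x`. `|b²/(4a) + a t²|` is bounded by a constant, and `2 a (n + b/(2a)) (σ t)` is at least `2 a (x/4) δ / 2 = C/160`, which tends to
infinity (`C ≥ x^(1/2)`), and at most `6 a x δ = 6 C/40`. So `1 ≤ σ c' ≤ C`. -/
def S_FE : Prop := ∀ (a : ℕ) (b σ : ℤ), 1 ≤ a → (σ = 1 ∨ σ = -1) → ∃ x0 : ℕ, ∀ x : ℕ, x0 ≤ x → ∀ C : ℕ,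
  (x : ℝ) ^ (1 / 2 : ℝ) ≤ C → C ≤ x → ∀ N : ℕ, (a : ℝ) * x ^ 2 / 9 ≤ N → (N : ℝ) ≤ a * (x : ℝ) ^ 2 / 4 →
  ∀ δ β0 : ℝ, δ = C / (40 * a * x) → β0 = b / (2 * a) + 2 * σ * δ → 0 < tri δ (√((N : ℝ) / a) - β0) →
  ∃ n ∈ Icc 1 x, ∃ c ∈ Icc 1 C, (N : ℤ) = a * (n : ℤ) ^ 2 + b * n + σ * c

/-- TASK PH4.  The fourth moment of `u / φ(u)`. (Search the library for moments of `n / φ(n)` first.)
Proof. `(u/φ(u))⁴ = ∑_{d ∣ u} g(d)` with `g ≥ 0` multiplicative, supported on squarefree `d`, `g(p) = (1 - 1/p)⁻⁴ - 1 ≤ 60/p`; so the sum is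
at most `X ∑_d g(d)/d ≤ X exp (∑_p 60/p²)`. -/
def S_PH4 : Prop := ∃ K : ℝ, 0 < K ∧ ∀ X : ℕ, ∑ u ∈ Icc 1 X, ((u : ℝ) / (Nat.totient u : ℝ)) ^ 4 ≤ K * X

/-- TASK SM.  The second moment, for the polynomials `a n² + b n + σ c`.
Proof. The left side is the number of the triples `(n, n', c)`. The triples with `n = n'` or `n ≤ n0` or `n' ≤ n0`, where
`n0 = ⌈4 (|b| + 1) √x⌉`: at most `(2 n0 + 1) x C ≤ C (x / log x)²`. For `n ≠ n'`, both `> n0`, the numbers `f0 n = a n² + b n > 2 C` are different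
natural numbers, and `sieve_two` in Pool/Graph/R_seed8/Helper112/PairSieve.lean (with `a₁ = a₂ = 1`, `N = C`, and for `σ = 1`:
`b₁ = f0 n`, `b₂ = f0 n'`; for `σ = -1` replace `c` by `C + 1 - c`: `b₁ = f0 n - C - 1`, `b₂ = f0 n' - C - 1`) gives
`≤ K (h / φ(h))² C / log² C`, `h = |f0 n - f0 n'| = u v`, `u = |n - n'| ≤ x`, `v = |a (n + n') + b| ≤ (2 a + |b|) x`. Here
`(uv/φ(uv))² ≤ (u/φ(u))² (v/φ(v))² ≤ (u/φ(u))⁴ + (v/φ(v))⁴`, for fixed `n` every `v` occurs at most once, every `u` at most twice, and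
`∑_{u ≤ X} (u/φ(u))⁴ ≤ K' X` is `S_PH4`. `log C ≥ log x / 2`. -/
def S_SM : Prop := S_PH4 → ∀ (a : ℕ) (b σ : ℤ), 1 ≤ a → (σ = 1 ∨ σ = -1) → ∃ K6 : ℝ, 0 < K6 ∧ ∃ x0 : ℕ, ∀ x : ℕ, x0 ≤ x → ∀ C : ℕ,
  (x : ℝ) ^ (1 / 2 : ℝ) ≤ C → C ≤ x →
  ∑ c ∈ Icc 1 C, (#((Icc 1 x).filter (fun n : ℕ => ((a : ℤ) * (n : ℤ) ^ 2 + b * n + σ * c).toNat.Prime)) : ℝ) ^ 2 ≤
    K6 * (C * (x / Real.log x) ^ 2)

end Pool.Agent.H568.PH
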