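import Mathlib
import Pool.Agent.H568.PH.Stm
import Pool.Graph.R_seed8.Helper112.Arith

/-!
Project PH: pieces of the assembly.
-/

set_option autoImplicit false

namespace Pool.Agent.H568.PH

open Finset Filter Topology Pool.Agent.N792
open ArithmeticFunction (moebius vonMangoldt)

lemma tri_nn (δ t : ℝ) : 0 ≤ tri δ t := le_max_left _ _

lemma tri_le1 {δ : ℝ} (hδ : 0 < δ) (t : ℝ) : tri δ t ≤ 1 := by
  unfold tri
  refine max_le zero_le_one ?_
  have : 0 ≤ |t - round t| / δ := by positivity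
  linarith

/-- both cut-offs -/
lemma cut_two (hCUT : S_CUT) {J K N N' : ℕ} {B : ℝ} (E : ℕ → ℝ) (hK : 1 ≤ K) (hNN : N ≤ N')
    (h : ∀ α β : ℕ → ℝ, (∀ r, |α r| ≤ 1) → (∀ s, |β s| ≤ 1) →
      |∑ r ∈ Ioc J (2 * J), ∑ s ∈ Ioc K (2 * K), α r * β s * E (r * s)| ≤ B)
    (α β : ℕ → ℝ) (hα : ∀ r, |α r| ≤ 1) (hβ : ∀ s, |β s| ≤ 1) :
    |∑ r ∈ Ioc J (2 * J), ∑ s ∈ Ioc K (2 * K), α r * β s * (if N < r * s ∧ r * s ≤ N' then E (r * s) else 0)| ≤
      16 * (1 + Real.log K) * B := by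
  have h1 := hCUT J K (fun r s => E (r * s)) B hK h α β hα hβ (fun r => N' / r)
  have h2 := hCUT J K (fun r s => E (r * s)) B hK h α β hα hβ (fun r => N / r)
  have e : ∑ r ∈ Ioc J (2 * J), ∑ s ∈ Ioc K (2 * K), α r * β s * (if N < r * s ∧ r * s ≤ N' then E (r * s) else 0) =
      ∑ r ∈ Ioc J (2 * J), ∑ s ∈ (Ioc K (2 * K)).filter (fun s => s ≤ N' / r), α r * β s * E (r * s) -
      ∑ r ∈ Ioc J (2 * J), ∑ s ∈ (Ioc K (2 * K)).filter (fun s => s ≤ N / r), α r * β s * E (r * s) := by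
    rw [← sum_sub_distrib]
    refine sum_congr rfl fun r hr => ?_
    rw [mem_Ioc] at hr
    have hr0 : 0 < r := by omega
    rw [sum_filter, sum_filter, ← sum_sub_distrib]
    refine sum_congr rfl fun s hs => ?_
    have i1 : s ≤ N' / r ↔ r * s ≤ N' := by rw [Nat.le_div_iff_mul_le hr0, mul_comm]
    have i2 : s ≤ N / r ↔ r * s ≤ N := by rw [Nat.le_div_iff_mul_le hr0, mul_comm]
    by_cases c1 : r * s ≤ N
    · rw [if_neg (by omega), if_pos (i1.2 (by omega)), if_pos (i2.2 c1)]; ring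
    · by_cases c2 : r * s ≤ N'
      · rw [if_pos ⟨by omega, c2⟩, if_pos (i1.2 c2), if_neg (fun h => c1 (i2.1 h))]; ring
      · rw [if_neg (by tauto), if_neg (fun h => c2 (i1.1 h)), if_neg (fun h => c1 (i2.1 h))]; ring
  rw [e]
  refine (abs_sub _ _).trans ?_
  linarith

/-- the prime powers -/
lemma prime_powers (N' : ℕ) (hN : 1 ≤ N') :
    ∑ n ∈ (Ioc 0 N').filter (fun n : ℕ => ¬ n.Prime), vonMangoldt n ≤ 2 * √(N' : ℝ) * Real.log N' := by
  have h1 := Chebyshev.psi_sub_theta_eq_sum_not_prime (N' : ℝ)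
  rw [Nat.floor_natCast] at h1
  have h2 := Chebyshev.psi_sub_theta_le (x := (N' : ℝ)) (by exact_mod_cast hN)
  rw [h1] at h2
  exact h2

/-- from the weighted sum over the primes to the number of the pairs -/
lemma to_pairs {a : ℕ} {b σ : ℤ} {x C N : ℕ} {δ β0 : ℝ} (hδ : 0 < δ) (hN : 1 ≤ N)
    (hFE : ∀ n ∈ Ioc N (2 * N), 0 < tri δ (√((n : ℝ) / a) - β0) →
      ∃ m ∈ Icc 1 x, ∃ c ∈ Icc 1 C, (n : ℤ) = a * (m : ℤ) ^ 2 + b * m + σ * c) :
    ∑ n ∈ Ioc N (2 * N), vonMangoldt n * tri δ (√((n : ℝ) / a) - β0) ≤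
      Real.log (2 * N) * ∑ c ∈ Icc 1 C, (#((Icc 1 x).filter (fun m : ℕ => ((a : ℤ) * (m : ℤ) ^ 2 + b * m + σ * c).toNat.Prime)) : ℝ) +
        2 * √((2 * N : ℕ) : ℝ) * Real.log (2 * N : ℕ) := by
  classical
  have hsplit := sum_filter_add_sum_filter_not (Ioc N (2 * N)) (fun n : ℕ => n.Prime)
    (fun n : ℕ => vonMangoldt n * tri δ (√((n : ℝ) / a) - β0))
  rw [← hsplit]
  refine add_le_add ?_ ?_
  · obtain ⟨T, hT⟩ : ∃ T : Finset ℕ, T = (Ioc N (2 * N)).filter (fun n : ℕ => n.Prime ∧ 0 < tri δ (√((n : ℝ) / a) - β0)) := ⟨_, rfl⟩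
    have h1 : ∑ n ∈ (Ioc N (2 * N)).filter (fun n : ℕ => n.Prime), vonMangoldt n * tri δ (√((n : ℝ) / a) - β0) ≤
        ∑ n ∈ T, Real.log (2 * N) := by
      have hlog0 : 0 ≤ Real.log (2 * N) := Real.log_nonneg (by
        have : (1 : ℝ) ≤ N := by exact_mod_cast hN
        linarith)
      rw [hT]
      have e : (Ioc N (2 * N)).filter (fun n : ℕ => n.Prime ∧ 0 < tri δ (√((n : ℝ) / a) - β0)) =
          ((Ioc N (2 * N)).filter (fun n : ℕ => n.Prime)).filter (fun n : ℕ => 0 < tri δ (√((n : ℝ) / a) - β0)) := by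
        rw [filter_filter]
      rw [e, sum_filter (p := fun n : ℕ => 0 < tri δ (√((n : ℝ) / a) - β0))]
      refine sum_le_sum fun n hn => ?_
      rw [mem_filter, mem_Ioc] at hn
      split_ifs with hp
      · have hv : vonMangoldt n ≤ Real.log (2 * N) := by
          refine ArithmeticFunction.vonMangoldt_le_log.trans ?_
          apply Real.log_le_log
          · exact_mod_cast (by omega : 0 < n)
          · exact_mod_cast hn.1.2
        calc vonMangoldt n * tri δ (√((n : ℝ) / a) - β0) ≤ Real.log (2 * N) * 1 :=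
              mul_le_mul hv (tri_le1 hδ _) (tri_nn _ _) hlog0
          _ = _ := mul_one _
      · have : tri δ (√((n : ℝ) / a) - β0) = 0 := le_antisymm (not_lt.1 hp) (tri_nn _ _)
        rw [this, mul_zero]
    refine h1.trans ?_
    rw [sum_const, nsmul_eq_mul, mul_comm]
    have hlog0 : 0 ≤ Real.log (2 * N) := Real.log_nonneg (by
        have : (1 : ℝ) ≤ N := by exact_mod_cast hN
        linarith)
    refine mul_le_mul_of_nonneg_left ?_ hlog0
    -- the injection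
    obtain ⟨W, hW⟩ : ∃ W : Finset (ℕ × ℕ), W = (Icc 1 C ×ˢ Icc 1 x).filter (fun t : ℕ × ℕ => ((a : ℤ) * (t.2 : ℤ) ^ 2 + b * t.2 + σ * t.1).toNat.Prime) := ⟨_, rfl⟩
    have hWc : (#W : ℝ) = ∑ c ∈ Icc 1 C, (#((Icc 1 x).filter (fun m : ℕ => ((a : ℤ) * (m : ℤ) ^ 2 + b * m + σ * c).toNat.Prime)) : ℝ) := by
      rw [hW, card_filter, sum_product]
      push_cast
      refine sum_congr rfl fun c hc => ?_
      rw [card_filter]
      push_cast
      rfl
    rw [← hWc]
    have hsub : T ⊆ W.image (fun t : ℕ × ℕ => ((a : ℤ) * (t.2 : ℤ) ^ 2 + b * t.2 + σ * t.1).toNat) := by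
      intro n hn
      rw [hT, mem_filter] at hn
      obtain ⟨m, hm, c, hc, hmc⟩ := hFE n hn.1 hn.2.2
      rw [mem_image]
      refine ⟨(c, m), ?_, ?_⟩
      · rw [hW, mem_filter, mem_product]
        refine ⟨⟨hc, hm⟩, ?_⟩
        simp only
        rw [← hmc, Int.toNat_natCast]
        exact hn.2.1
      · simp only
        rw [← hmc, Int.toNat_natCast]
    exact_mod_cast (card_le_card hsub).trans card_image_le
  · refine le_trans ?_ (prime_powers (2 * N) (by omega))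
    calc ∑ n ∈ (Ioc N (2 * N)).filter (fun n : ℕ => ¬ n.Prime), vonMangoldt n * tri δ (√((n : ℝ) / a) - β0) ≤
        ∑ n ∈ (Ioc N (2 * N)).filter (fun n : ℕ => ¬ n.Prime), vonMangoldt n := by
          refine sum_le_sum fun n hn => ?_
          calc vonMangoldt n * tri δ (√((n : ℝ) / a) - β0) ≤ vonMangoldt n * 1 :=
                mul_le_mul_of_nonneg_left (tri_le1 hδ _) ArithmeticFunction.vonMangoldt_nonneg
            _ = _ := mul_one _
      _ ≤ _ := by
          refine sum_le_sum_of_subset_of_nonneg ?_ (fun _ _ _ => ArithmeticFunction.vonMangoldt_nonneg)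
          intro n hn
          rw [mem_filter, mem_Ioc] at hn ⊢
          exact ⟨⟨by omega, hn.1.2⟩, hn.2⟩

end Pool.Agent.H568.PH
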