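import Mathlib
import Pool.Agent.H568.PH.Fm1

/-!
Project PH: the first moment.
-/

set_option autoImplicit false

namespace Pool.Agent.H568.PH

open Finset Filter Topology Pool.Agent.N792
open ArithmeticFunction (moebius vonMangoldt)

lemma evP (P : ℝ → Prop) (h : ∀ᶠ x : ℝ in Filter.atTop, P x) : ∃ N₀ : ℕ, ∀ N : ℕ, N₀ ≤ N → P N := by
  obtain ⟨A, hA⟩ := Filter.eventually_atTop.1 h
  obtain ⟨N0, hN0⟩ := exists_nat_ge A
  exact ⟨N0, fun N hN => hA N (hN0.trans (by exact_mod_cast hN))⟩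

lemma ev_logpow (k : ℕ) (c : ℝ) (s : ℝ) (hs : 0 < s) : ∀ᶠ x : ℝ in Filter.atTop, c * Real.log x ^ k ≤ x ^ s := by
  have h1 : (fun x : ℝ => c * Real.log x ^ k) =o[atTop] (fun x : ℝ => x ^ s) := by
    apply Asymptotics.IsLittleO.const_mul_left
    have h2 := isLittleO_log_rpow_rpow_atTop (k : ℝ) hs
    refine h2.congr' ?_ (by rfl)
    filter_upwards with x
    rw [Real.rpow_natCast]
  have h3 := h1.bound (one_pos)
  filter_upwards [h3, eventually_ge_atTop (0 : ℝ)] with x hx hx0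
  rw [one_mul, Real.norm_eq_abs, Real.norm_eq_abs, abs_of_nonneg (Real.rpow_nonneg hx0 s)] at hx
  exact (le_abs_self _).trans hx

/-- the numerical part: the error term -/
lemma num_err {A X C δ P x12 : ℝ} (hA : 1 ≤ A) (hX : 1 ≤ X) (hδ : δ = C / (40 * A * X)) (hC0 : 0 < C)
    (ε : ℝ) (hε : 0 < ε) (hC : X ^ (1 / 2 + ε) ≤ C) (hP : P = C * X * X ^ (-(ε / 2))) (hx12 : x12 = X ^ (3 / 2 : ℝ)) :
    x12 ≤ P ∧ X * √(4 * A * δ * x12) ≤ P := by
  have hX0 : 0 < X := by linarith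
  have e1 : X ^ (3 / 2 : ℝ) = X ^ (1 / 2 : ℝ) * X := by
    rw [show (3 / 2 : ℝ) = 1 / 2 + 1 by norm_num, Real.rpow_add hX0, Real.rpow_one]
  have h1 : X ^ (1 / 2 : ℝ) ≤ C * X ^ (-(ε / 2)) := by
    have h2 : X ^ (1 / 2 : ℝ) ≤ X ^ (1 / 2 + ε) * X ^ (-(ε / 2)) := by
      rw [← Real.rpow_add hX0]
      exact Real.rpow_le_rpow_of_exponent_le hX (by linarith)
    exact h2.trans (mul_le_mul_of_nonneg_right hC (Real.rpow_nonneg hX0.le _))
  have h3 : X ^ (1 / 2 : ℝ) ≤ C * X ^ (-ε) := by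
    have h2 : X ^ (1 / 2 : ℝ) ≤ X ^ (1 / 2 + ε) * X ^ (-ε) := by
      rw [← Real.rpow_add hX0]
      exact Real.rpow_le_rpow_of_exponent_le hX (by linarith)
    exact h2.trans (mul_le_mul_of_nonneg_right hC (Real.rpow_nonneg hX0.le _))
  have hP0 : 0 ≤ P := by rw [hP]; positivity
  refine ⟨?_, ?_⟩
  · rw [hx12, e1, hP]
    calc X ^ (1 / 2 : ℝ) * X ≤ C * X ^ (-(ε / 2)) * X := mul_le_mul_of_nonneg_right h1 hX0.le
      _ = _ := by ring
  · have h4 : X * √(4 * A * δ * x12) = √(X ^ 2 * (4 * A * δ * x12)) := by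
      rw [Real.sqrt_mul (sq_nonneg X) (4 * A * δ * x12), Real.sqrt_sq hX0.le]
    rw [h4]
    apply Real.sqrt_le_iff.2 ⟨hP0, ?_⟩
    have h5 : P ^ 2 = C * X ^ 2 * (C * X ^ (-ε)) := by
      rw [hP]
      have : X ^ (-(ε / 2)) ^ 2 = X ^ (-(ε / 2)) ^ 2 := rfl
      have h6 : (X ^ (-(ε / 2))) ^ 2 = X ^ (-ε) := by
        rw [← Real.rpow_natCast, ← Real.rpow_mul hX0.le]
        congr 1
        push_cast
        ring
      calc (C * X * X ^ (-(ε / 2))) ^ 2 = C ^ 2 * X ^ 2 * (X ^ (-(ε / 2))) ^ 2 := by ring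
        _ = _ := by rw [h6]; ring
    have h7 : X ^ 2 * (4 * A * δ * x12) = C * X ^ 2 * (X ^ (1 / 2 : ℝ) / 10) := by
      rw [hδ, hx12, e1]
      field_simp
      ring
    rw [h5, h7]
    apply mul_le_mul_of_nonneg_left _ (by positivity)
    have : 0 ≤ X ^ (1 / 2 : ℝ) := Real.rpow_nonneg hX0.le _
    linarith

end Pool.Agent.H568.PH
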