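import Mathlib
import Pool.Agent.H568.PH.Fm2

/-!
Project PH: the first moment, and the count of the constant terms.
-/

set_option autoImplicit false

namespace Pool.Agent.H568.PH

open Finset Filter Topology Pool.Agent.N792
open ArithmeticFunction (moebius vonMangoldt)

/-- elementary size facts -/
lemma size_facts {a x : ℕ} (ha : 1 ≤ a) (hx : 81 ≤ x) :
    1 ≤ (a * x ^ 2) / 8 ∧ (a : ℝ) * x ^ 2 / 9 ≤ ((a * x ^ 2 / 8 : ℕ) : ℝ) ∧ 2 * (((a * x ^ 2 / 8 : ℕ) : ℝ)) ≤ a * (x : ℝ) ^ 2 / 4 ∧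
    1 ≤ Nat.sqrt x ∧ (Nat.sqrt x) ^ 3 ≤ (a * x ^ 2) / 8 ∧ (Nat.sqrt x : ℝ) ≤ √(x : ℝ) ∧ √(x : ℝ) / 2 ≤ (Nat.sqrt x : ℝ) ∧
    Nat.sqrt x ≤ x := by
  have hx2 : 81 * 81 ≤ x ^ 2 := by nlinarith
  have hax : x ^ 2 ≤ a * x ^ 2 := Nat.le_mul_of_pos_left _ (by omega)
  have h8 : (a : ℝ) * x ^ 2 / 8 - 1 < ((a * x ^ 2 / 8 : ℕ) : ℝ) := by
    have h1 : a * x ^ 2 < 8 * (a * x ^ 2 / 8 + 1) := by omega
    have h2 : ((a * x ^ 2 : ℕ) : ℝ) < 8 * (((a * x ^ 2 / 8 : ℕ) : ℝ) + 1) := by exact_mod_cast h1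
    push_cast at h2 ⊢
    linarith
  have haxR : (72 : ℝ) ≤ (a : ℝ) * x ^ 2 := by
    have : (81 * 81 : ℕ) ≤ a * x ^ 2 := hx2.trans hax
    have h2 : ((81 * 81 : ℕ) : ℝ) ≤ ((a * x ^ 2 : ℕ) : ℝ) := by exact_mod_cast this
    push_cast at h2
    linarith
  have hle : (((a * x ^ 2 / 8 : ℕ) : ℝ)) ≤ (a : ℝ) * x ^ 2 / 8 := by
    have := Nat.cast_div_le (α := ℝ) (m := a * x ^ 2) (n := 8)
    push_cast at this ⊢
    exact this
  have hs1 : Nat.sqrt x * Nat.sqrt x ≤ x := Nat.sqrt_le x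
  have hs2 : x < (Nat.sqrt x + 1) * (Nat.sqrt x + 1) := Nat.lt_succ_sqrt x
  have hs9 : 9 ≤ Nat.sqrt x := by
    rw [Nat.le_sqrt]
    omega
  refine ⟨by omega, by linarith, by linarith, by omega, ?_, ?_, ?_, Nat.sqrt_le_self x⟩
  · rw [Nat.le_div_iff_mul_le (by norm_num)]
    have h1 : Nat.sqrt x ^ 3 * 8 ≤ x ^ 2 := by
      have h2 : Nat.sqrt x ^ 3 * 8 ≤ Nat.sqrt x ^ 4 := by
        have : Nat.sqrt x ^ 4 = Nat.sqrt x ^ 3 * Nat.sqrt x := by ring
        rw [this]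
        exact Nat.mul_le_mul_left _ (by omega)
      have h3 : Nat.sqrt x ^ 4 ≤ x ^ 2 := by
        have : Nat.sqrt x ^ 4 = (Nat.sqrt x * Nat.sqrt x) ^ 2 := by ring
        rw [this]
        exact Nat.pow_le_pow_left hs1 2
      exact h2.trans h3
    exact h1.trans hax
  · apply Real.le_sqrt_of_sq_le
    have : ((Nat.sqrt x * Nat.sqrt x : ℕ) : ℝ) ≤ x := by exact_mod_cast hs1
    push_cast at this
    nlinarith
  · have h1 : √(x : ℝ) ≤ (Nat.sqrt x : ℝ) + 1 := by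
      apply Real.sqrt_le_iff.2 ⟨by positivity, ?_⟩
      have : (x : ℝ) < (((Nat.sqrt x + 1) * (Nat.sqrt x + 1) : ℕ) : ℝ) := by exact_mod_cast hs2
      push_cast at this
      nlinarith
    have h2 : (9 : ℝ) ≤ Nat.sqrt x := by exact_mod_cast hs9
    linarith

/-- the first moment -/
theorem fm (hSP : S_SP) (hBL : S_BL) (hQ5 : S_Q5) (hTT : S_TT) (hCUT : S_CUT) (hTY : S_TY) (hVA : S_VA) (hPSI : S_PSI) (hFE : S_FE)
    (a : ℕ) (b σ : ℤ) (ha : 1 ≤ a) (hσ : σ = 1 ∨ σ = -1) (ε : ℝ) (hε : 0 < ε) :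
    ∃ c0 : ℝ, 0 < c0 ∧ ∃ x0 : ℕ, ∀ x : ℕ, x0 ≤ x → ∀ C : ℕ, (x : ℝ) ^ (1 / 2 + ε) ≤ C → C ≤ x →
      c0 * (C * (x / Real.log x)) ≤
        ∑ c ∈ Icc 1 C, (#((Icc 1 x).filter (fun m : ℕ => ((a : ℤ) * (m : ℤ) ^ 2 + b * m + σ * c).toNat.Prime)) : ℝ) := by
  obtain ⟨C3, hC3, h3⟩ := hTT hSP hBL hQ5 a a ha ha
  obtain ⟨C4, hC4, h4⟩ := hTY a a ha ha
  obtain ⟨c5, hc5, N5, h5⟩ := hPSI
  obtain ⟨x1, hx1⟩ := hFE a b σ ha hσ
  obtain ⟨Cd, hCd, hd⟩ := Pool.Agent.Helper112.divisor_bound (ε / 16) (by positivity)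
  obtain ⟨G, hG⟩ : ∃ G : ℝ, G = 128 * C3 * Cd * (a : ℝ) ^ (ε / 16) + C4 := ⟨_, rfl⟩
  have haR : (1 : ℝ) ≤ a := by exact_mod_cast ha
  have hG0 : 0 < G := by rw [hG]; positivity
  obtain ⟨x2, hx2⟩ := evP _ (ev_logpow 6 (25600 * G * 720 / c5) (3 * ε / 8) (by positivity))
  obtain ⟨x3, hx3⟩ := evP _ (ev_logpow 1 (4 * √(a : ℝ) * 1440 / c5) (1 / 2) (by norm_num))
  refine ⟨c5 / 5760, by positivity, max (max (max 81 (1600 * a ^ 2)) (max x1 x2)) (max x3 N5), ?_⟩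
  intro x hx C hCl hCu
  simp only [max_le_iff] at hx
  obtain ⟨⟨⟨hx81, hxa⟩, hx1', hx2'⟩, hx3', hxN5⟩ := hx
  have hx2 := hx2 x hx2'
  have hx3 := hx3 x hx3'
  obtain ⟨hN1, hN9, hN4, hV1, hV3, hVu, hVl, hVx⟩ := size_facts ha hx81
  obtain ⟨N, hN⟩ : ∃ N : ℕ, N = a * x ^ 2 / 8 := ⟨_, rfl⟩
  obtain ⟨V, hV⟩ : ∃ V : ℕ, V = Nat.sqrt x := ⟨_, rfl⟩
  rw [← hN] at hN1 hN9 hN4 hV3
  rw [← hV] at hV1 hV3 hVu hVl hVx
  have hxR : (81 : ℝ) ≤ x := by exact_mod_cast hx81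
  have hx0 : (0 : ℝ) < x := by linarith
  have hx1R : (1 : ℝ) ≤ x := by linarith
  -- logarithm
  obtain ⟨L, hL⟩ : ∃ L : ℝ, L = Real.log x := ⟨_, rfl⟩
  have hL1 : 1 ≤ L := by
    rw [hL, Real.le_log_iff_exp_le hx0]
    have := Real.exp_one_lt_d9
    linarith
  have haL : Real.log a ≤ L := by
    rw [hL]
    apply Real.log_le_log (by linarith)
    have : a ≤ x := by nlinarith
    exact_mod_cast this
  have hlogax : ∀ t : ℝ, 0 < t → t ≤ a * (x : ℝ) ^ 2 → 1 + Real.log t ≤ 4 * L := by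
    intro t ht htu
    have h1 : Real.log t ≤ Real.log (a * (x : ℝ) ^ 2) := Real.log_le_log ht htu
    rw [Real.log_mul (by positivity) (by positivity), Real.log_pow] at h1
    push_cast at h1
    rw [← hL] at h1
    linarith
  have hCpos : (0 : ℝ) < C := lt_of_lt_of_le (Real.rpow_pos_of_pos hx0 _) hCl
  have hCx : (C : ℝ) ≤ x := by exact_mod_cast hCu
  obtain ⟨δ, hδ⟩ : ∃ δ : ℝ, δ = C / (40 * a * x) := ⟨_, rfl⟩
  obtain ⟨β0, hβ0⟩ : ∃ β0 : ℝ, β0 = b / (2 * a) + 2 * σ * δ := ⟨_, rfl⟩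
  have hδ0 : 0 < δ := by rw [hδ]; positivity
  have hδ2 : δ ≤ 1 / 2 := by
    rw [hδ, div_le_iff₀ (by positivity)]
    nlinarith
  have hx12 : (x : ℝ) ^ (1 / 2 : ℝ) ≤ C := by
    refine le_trans ?_ hCl
    exact Real.rpow_le_rpow_of_exponent_le hx1R (by linarith)
  obtain ⟨P, hP⟩ : ∃ P : ℝ, P = C * x * (x : ℝ) ^ (-(ε / 2)) := ⟨_, rfl⟩
  obtain ⟨x12, hx32⟩ : ∃ x12 : ℝ, x12 = (x : ℝ) ^ (3 / 2 : ℝ) := ⟨_, rfl⟩
  obtain ⟨hPa, hPb⟩ := num_err haR hx1R hδ hCpos ε hε hCl hP hx32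
  have hP0 : 0 ≤ P := by rw [hP]; positivity
  have hx32e : x12 = √(x : ℝ) * x := by
    rw [hx32, Real.sqrt_eq_rpow, show (3 / 2 : ℝ) = 1 / 2 + 1 by norm_num, Real.rpow_add hx0, Real.rpow_one]
  have hδx : 1 / (x : ℝ) ≤ δ := by
    rw [hδ, div_le_div_iff₀ hx0 (by positivity)]
    have h1 : (40 * a : ℝ) ≤ C := by
      refine le_trans ?_ hx12
      rw [← Real.sqrt_eq_rpow]
      apply Real.le_sqrt_of_sq_le
      have : ((1600 * a ^ 2 : ℕ) : ℝ) ≤ x := by exact_mod_cast hxa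
      push_cast at this
      nlinarith
    nlinarith
  obtain ⟨E, hE⟩ : ∃ E : ℕ → ℝ, E = fun n : ℕ => tri δ (√((n : ℝ) / a) - β0) - δ := ⟨_, rfl⟩
  obtain ⟨D, hD⟩ : ∃ D : ℝ, D = Cd * ((a : ℝ) * x ^ 2) ^ (ε / 16) := ⟨_, rfl⟩
  have hD0 : 0 ≤ D := by rw [hD]; positivity
  have hax4 : a * (x : ℝ) ^ 2 / 4 ≤ a * (x : ℝ) ^ 2 := by
    have : 0 ≤ a * (x : ℝ) ^ 2 := by positivity
    linarith
  have hVA' := hVA E N (2 * N) V hN1 (by omega) le_rfl hV1 hV3 (C4 * x) (128 * C3 * L ^ 2 * P) D (by positivity) (by positivity)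
    (by
      intro n hn1 hn2
      rw [hD]
      refine (hd n hn1).trans ?_
      refine mul_le_mul_of_nonneg_left ?_ hCd.le
      apply Real.rpow_le_rpow (by positivity) _ (by positivity)
      have h1 : (n : ℝ) ≤ 2 * N := by exact_mod_cast hn2
      linarith)
    (by
      intro j hj b' hb'
      rw [mem_Icc] at hj
      rw [hE]
      refine h4 x (by omega) N b' j hj.1 (hj.2.trans hVx) ?_ ?_ β0 δ hδ0 hδ2
      · have : (0 : ℝ) ≤ N := by positivity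
        linarith
      · have h1 : j * b' ≤ 2 * N := by
          have := Nat.mul_le_mul_left j hb'
          exact this.trans (Nat.mul_div_le _ _)
        have h2 : ((j * b' : ℕ) : ℝ) ≤ ((2 * N : ℕ) : ℝ) := by exact_mod_cast h1
        rw [Nat.cast_mul 2 N] at h2
        push_cast at h2 ⊢
        linarith)
    (by
      intro α β hα hβ J K hJ hK hVJ hVK hJK
      have hJKR : (J : ℝ) * K ≤ a * (x : ℝ) ^ 2 / 4 := by
        have h1 : ((J * K : ℕ) : ℝ) ≤ ((2 * N : ℕ) : ℝ) := by exact_mod_cast hJK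
        push_cast at h1
        linarith
      have hB := cut_two (J := J) (K := K) (N := N) (N' := 2 * N) (B := C3 * Real.log x * ((x : ℝ) ^ (3 / 2 : ℝ) + x * √(δ * (max J K : ℕ)))) hCUT E hK (by omega)
        (by
          intro α' β' hα' hβ'
          rw [hE]
          exact h3 x J K (by omega) hJ hK (hJKR.trans hax4) α' β' hα' hβ' β0 δ hδx hδ2) α β hα hβ
      refine hB.trans ?_
      have hK1 : (1 : ℝ) ≤ K := by exact_mod_cast hK
      have hJ1 : (1 : ℝ) ≤ J := by exact_mod_cast hJ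
      have hlogK : 1 + Real.log K ≤ 4 * L := by
        apply hlogax K (by linarith)
        nlinarith
      have hmax : ((max J K : ℕ) : ℝ) ≤ 4 * a * x12 := by
        have hVJ' : √(x : ℝ) / 4 ≤ J := by
          have : (V : ℝ) < 2 * J := by exact_mod_cast hVJ
          linarith
        have hVK' : √(x : ℝ) / 4 ≤ K := by
          have : (V : ℝ) < 2 * K := by exact_mod_cast hVK
          linarith
        have hs0 : 0 < √(x : ℝ) := Real.sqrt_pos.2 hx0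
        have hss : √(x : ℝ) * √(x : ℝ) = x := Real.mul_self_sqrt hx0.le
        have hkey : ∀ u v : ℝ, √(x : ℝ) / 4 ≤ u → 0 ≤ v → u * v ≤ a * (x : ℝ) ^ 2 / 4 → v ≤ 4 * a * x12 := by
          intro u v hu hv huv
          have h1 : √(x : ℝ) / 4 * v ≤ a * (x : ℝ) ^ 2 / 4 := (mul_le_mul_of_nonneg_right hu hv).trans huv
          have h2 : √(x : ℝ) * v ≤ √(x : ℝ) * (4 * a * x12) := by
            rw [hx32e]
            have : √(x : ℝ) * (4 * a * (√(x : ℝ) * x)) = 4 * (a * (x : ℝ) ^ 2) := by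
              calc √(x : ℝ) * (4 * a * (√(x : ℝ) * x)) = 4 * a * (√(x : ℝ) * √(x : ℝ)) * x := by ring
                _ = _ := by rw [hss]; ring
            rw [this]
            have : 0 ≤ a * (x : ℝ) ^ 2 := by positivity
            linarith
          exact le_of_mul_le_mul_left h2 hs0
        rw [Nat.cast_max]
        apply max_le
        · exact hkey K J hVK' (by positivity) (by rw [mul_comm]; exact hJKR)
        · exact hkey J K hVJ' (by positivity) hJKR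
      have hs : √(δ * (max J K : ℕ)) ≤ √(4 * a * δ * x12) := by
        apply Real.sqrt_le_sqrt
        calc δ * ((max J K : ℕ) : ℝ) ≤ δ * (4 * a * x12) := mul_le_mul_of_nonneg_left hmax hδ0.le
          _ = _ := by ring
      have hB2 : (x : ℝ) ^ (3 / 2 : ℝ) + x * √(δ * (max J K : ℕ)) ≤ 2 * P := by
        rw [← hx32]
        have := mul_le_mul_of_nonneg_left hs hx0.le
        linarith
      rw [← hL]
      have hlK0 : 0 ≤ 1 + Real.log K := by
        have := Real.log_nonneg hK1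
        linarith
      calc 16 * (1 + Real.log K) * (C3 * L * ((x : ℝ) ^ (3 / 2 : ℝ) + x * √(δ * (max J K : ℕ))))
          ≤ 16 * (4 * L) * (C3 * L * (2 * P)) := by
            apply mul_le_mul
            · linarith
            · exact mul_le_mul_of_nonneg_left hB2 (by positivity)
            · positivity
            · positivity
        _ = _ := by ring)
  -- the error is small
  have hsub : ∑ n ∈ Ioc N (2 * N), vonMangoldt n * E n = ∑ n ∈ Ioc N (2 * N), vonMangoldt n * tri δ (√((n : ℝ) / a) - β0) -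
      δ * ∑ n ∈ Ioc N (2 * N), vonMangoldt n := by
    rw [hE, mul_sum, ← sum_sub_distrib]
    refine sum_congr rfl fun n _ => ?_
    ring
  have hN1R : (1 : ℝ) ≤ N := by exact_mod_cast hN1
  have hlog4N : 1 + Real.log (4 * N) ≤ 4 * L := by
    apply hlogax _ (by linarith)
    have : 0 ≤ a * (x : ℝ) ^ 2 := by positivity
    linarith
  have hlog4N0 : 0 ≤ 1 + Real.log (4 * N) := by
    have := Real.log_nonneg (show (1 : ℝ) ≤ 4 * N by linarith)
    linarith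
  obtain ⟨S, hS⟩ : ∃ S : ℝ, S = ∑ n ∈ Ioc N (2 * N), vonMangoldt n * tri δ (√((n : ℝ) / a) - β0) := ⟨_, rfl⟩
  have hδN : (C : ℝ) * x / 360 ≤ δ * N := by
    calc (C : ℝ) * x / 360 = δ * (a * x ^ 2 / 9) := by rw [hδ]; field_simp; norm_num
      _ ≤ _ := mul_le_mul_of_nonneg_left hN9 hδ0.le
  have herr : 100 * (1 + Real.log (4 * N)) ^ 4 * (D * (128 * C3 * L ^ 2 * P) + V * (C4 * x)) ≤ c5 / 2 * (δ * N) := by
    have h1 : (1 + Real.log (4 * N)) ^ 4 ≤ (4 * L) ^ 4 := pow_le_pow_left₀ hlog4N0 hlog4N 4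
    have h2 : (V : ℝ) * (C4 * x) ≤ C4 * P := by
      calc (V : ℝ) * (C4 * x) ≤ √(x : ℝ) * (C4 * x) := mul_le_mul_of_nonneg_right hVu (by positivity)
        _ = C4 * x12 := by rw [hx32e]; ring
        _ ≤ _ := mul_le_mul_of_nonneg_left hPa hC4.le
    have hxe : (1 : ℝ) ≤ (x : ℝ) ^ (ε / 8) := Real.one_le_rpow hx1R (by positivity)
    have hDe : D = Cd * (a : ℝ) ^ (ε / 16) * (x : ℝ) ^ (ε / 8) := by
      rw [hD, Real.mul_rpow (by positivity) (by positivity), ← Real.rpow_natCast, ← Real.rpow_mul hx0.le]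
      rw [show ((2 : ℕ) : ℝ) * (ε / 16) = ε / 8 by push_cast; ring]
      ring
    have h3 : D * (128 * C3 * L ^ 2 * P) + V * (C4 * x) ≤ L ^ 2 * ((x : ℝ) ^ (ε / 8) * P) * G := by
      have hLL : 1 ≤ L ^ 2 := one_le_pow₀ hL1
      calc D * (128 * C3 * L ^ 2 * P) + V * (C4 * x) ≤ D * (128 * C3 * L ^ 2 * P) + C4 * P := by linarith
        _ = 128 * C3 * Cd * (a : ℝ) ^ (ε / 16) * (L ^ 2 * ((x : ℝ) ^ (ε / 8) * P)) + C4 * (1 * (1 * P)) := by rw [hDe]; ring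
        _ ≤ 128 * C3 * Cd * (a : ℝ) ^ (ε / 16) * (L ^ 2 * ((x : ℝ) ^ (ε / 8) * P)) + C4 * (L ^ 2 * ((x : ℝ) ^ (ε / 8) * P)) := by
            have : 1 * (1 * P) ≤ L ^ 2 * ((x : ℝ) ^ (ε / 8) * P) := by
              apply mul_le_mul hLL _ (by positivity) (by positivity)
              exact mul_le_mul_of_nonneg_right hxe hP0
            have := mul_le_mul_of_nonneg_left this hC4.le
            linarith
        _ = _ := by rw [hG]; ring
    have h4' : 0 ≤ D * (128 * C3 * L ^ 2 * P) + V * (C4 * x) := by positivity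
    have h5' : (x : ℝ) ^ (ε / 8) * P = C * x * (x : ℝ) ^ (-(3 * ε / 8)) := by
      rw [hP]
      calc (x : ℝ) ^ (ε / 8) * (C * x * (x : ℝ) ^ (-(ε / 2))) = C * x * ((x : ℝ) ^ (ε / 8) * (x : ℝ) ^ (-(ε / 2))) := by ring
        _ = _ := by rw [← Real.rpow_add hx0]; congr 2; ring
    have h6 : 25600 * G * L ^ 6 * (x : ℝ) ^ (-(3 * ε / 8)) ≤ c5 / 720 := by
      have h7 : 25600 * G * 720 / c5 * L ^ 6 ≤ (x : ℝ) ^ (3 * ε / 8) := by rw [hL]; exact hx2
      have h8 : (x : ℝ) ^ (3 * ε / 8) * (x : ℝ) ^ (-(3 * ε / 8)) = 1 := by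
        rw [← Real.rpow_add hx0, add_neg_cancel, Real.rpow_zero]
      have h9 : 0 < (x : ℝ) ^ (-(3 * ε / 8)) := Real.rpow_pos_of_pos hx0 _
      have h10 := mul_le_mul_of_nonneg_right h7 h9.le
      rw [h8] at h10
      have h11 : 25600 * G * L ^ 6 * (x : ℝ) ^ (-(3 * ε / 8)) = c5 / 720 * (25600 * G * 720 / c5 * L ^ 6 * (x : ℝ) ^ (-(3 * ε / 8))) := by
        field_simp
      rw [h11]
      calc c5 / 720 * (25600 * G * 720 / c5 * L ^ 6 * (x : ℝ) ^ (-(3 * ε / 8))) ≤ c5 / 720 * 1 :=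
            mul_le_mul_of_nonneg_left h10 (by positivity)
        _ = _ := mul_one _
    calc 100 * (1 + Real.log (4 * N)) ^ 4 * (D * (128 * C3 * L ^ 2 * P) + V * (C4 * x))
        ≤ 100 * (4 * L) ^ 4 * (L ^ 2 * ((x : ℝ) ^ (ε / 8) * P) * G) := by
          apply mul_le_mul _ h3 h4' (by positivity)
          linarith
      _ = (25600 * G * L ^ 6 * (x : ℝ) ^ (-(3 * ε / 8))) * (C * x) := by rw [h5']; ring
      _ ≤ c5 / 720 * (C * x) := mul_le_mul_of_nonneg_right h6 (by positivity)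
      _ = c5 / 2 * (C * x / 360) := by ring
      _ ≤ _ := mul_le_mul_of_nonneg_left hδN (by positivity)
  have hNN5 : N5 ≤ N := by
    refine hxN5.trans ?_
    rw [hN, Nat.le_div_iff_mul_le (by norm_num)]
    nlinarith
  have hpsi := h5 N hNN5
  have hSlow : c5 / 720 * (C * x) ≤ S := by
    have h1 := abs_le.1 (hVA'.trans herr)
    rw [hsub, ← hS] at h1
    have h2 : δ * (c5 * N) ≤ δ * ∑ n ∈ Ioc N (2 * N), vonMangoldt n := mul_le_mul_of_nonneg_left hpsi hδ0.le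
    have h3 : c5 / 2 * (C * x / 360) ≤ c5 / 2 * (δ * N) := mul_le_mul_of_nonneg_left hδN (by positivity)
    have h4 : c5 / 720 * (C * x) = c5 / 2 * (C * x / 360) := by ring
    rw [h4]
    nlinarith [h1.1]
  have hpairs := to_pairs (a := a) (b := b) (σ := σ) (x := x) (C := C) (N := N) (δ := δ) (β0 := β0) hδ0 hN1
    (by
      intro n hn hpos
      rw [mem_Ioc] at hn
      refine hx1 x hx1' C hx12 hCu n ?_ ?_ δ β0 hδ hβ0 hpos
      · have : (N : ℝ) < n := by exact_mod_cast hn.1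
        linarith
      · have : (n : ℝ) ≤ 2 * N := by exact_mod_cast hn.2
        linarith)
  rw [← hS] at hpairs
  obtain ⟨Q, hQ⟩ : ∃ Q : ℝ, Q = ∑ c ∈ Icc 1 C, (#((Icc 1 x).filter (fun m : ℕ => ((a : ℤ) * (m : ℤ) ^ 2 + b * m + σ * c).toNat.Prime)) : ℝ) := ⟨_, rfl⟩
  rw [← hQ] at hpairs ⊢
  have hQ0 : 0 ≤ Q := by rw [hQ]; positivity
  have hlog2N : Real.log (2 * N) ≤ 4 * L := by
    have := hlogax (2 * N) (by linarith) (by linarith)
    linarith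
  have hlog2N' : Real.log ((2 * N : ℕ) : ℝ) ≤ 4 * L := by push_cast; exact hlog2N
  have hsq : 2 * √((2 * N : ℕ) : ℝ) ≤ √(a : ℝ) * x := by
    have h1 : √((2 * N : ℕ) : ℝ) ≤ √(a : ℝ) * x / 2 := by
      apply Real.sqrt_le_iff.2 ⟨by positivity, ?_⟩
      push_cast
      have : (√(a : ℝ) * x / 2) ^ 2 = (√(a : ℝ) ^ 2) * x ^ 2 / 4 := by ring
      rw [this, Real.sq_sqrt (by positivity)]
      exact hN4
    linarith
  have hsmall : 2 * √((2 * N : ℕ) : ℝ) * Real.log ((2 * N : ℕ) : ℝ) ≤ c5 / 1440 * (C * x) := by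
    have h1 : 4 * √(a : ℝ) * 1440 / c5 * L ^ 1 ≤ (x : ℝ) ^ (1 / 2 : ℝ) := by rw [hL]; exact hx3
    rw [pow_one] at h1
    have h2 : 4 * √(a : ℝ) * 1440 / c5 * L ≤ C := h1.trans hx12
    have h3 : √(a : ℝ) * (4 * L) = c5 / 1440 * (4 * √(a : ℝ) * 1440 / c5 * L) := by field_simp
    have hlog0 : 0 ≤ Real.log ((2 * N : ℕ) : ℝ) := Real.log_natCast_nonneg _
    calc 2 * √((2 * N : ℕ) : ℝ) * Real.log ((2 * N : ℕ) : ℝ) ≤ √(a : ℝ) * x * (4 * L) :=
          mul_le_mul hsq hlog2N' hlog0 (by positivity)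
      _ = (√(a : ℝ) * (4 * L)) * x := by ring
      _ = c5 / 1440 * (4 * √(a : ℝ) * 1440 / c5 * L) * x := by rw [h3]
      _ ≤ c5 / 1440 * C * x := by
          apply mul_le_mul_of_nonneg_right _ hx0.le
          exact mul_le_mul_of_nonneg_left h2 (by positivity)
      _ = _ := by ring
  have hfin : c5 / 1440 * (C * x) ≤ 4 * L * Q := by
    have h1 : Real.log (2 * N) * Q ≤ 4 * L * Q := mul_le_mul_of_nonneg_right hlog2N hQ0
    have h2 : c5 / 720 * (C * x) = c5 / 1440 * (C * x) + c5 / 1440 * (C * x) := by ring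
    linarith
  rw [← hL]
  have hL0 : 0 < L := by linarith
  have h1 : c5 / 5760 * (C * (x / L)) = (c5 / 1440 * (C * x)) / (4 * L) := by field_simp; norm_num
  rw [h1, div_le_iff₀ (by positivity)]
  linarith

end Pool.Agent.H568.PH
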