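import Mathlib
import Pool.Agent.H568.PH.Fm3
import Pool.Agent.H568.PH.P.BL
import Pool.Agent.H568.PH.P.CUT
import Pool.Agent.H568.PH.P.FE
import Pool.Agent.H568.PH.P.PSI
import Pool.Agent.H568.PH.P.Q5
import Pool.Agent.H568.PH.P.SM
import Pool.Agent.H568.PH.P.SP
import Pool.Agent.H568.PH.P.TT
import Pool.Agent.H568.PH.P.TY
import Pool.Agent.H568.PH.P.VA
import Pool.Agent.H568.PH.P.PH4

/-!
Project PH: a positive proportion of the constant terms `c ≤ C`, `C ≥ x^(1/2+ε)`.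
-/

set_option autoImplicit false

namespace Pool.Agent.H568.PH

open Finset Filter Topology

/-- the second moment method -/
lemma pz {C : ℕ} (f : ℕ → ℝ) (hf : ∀ c, 0 ≤ f c) {c0 K6 T : ℝ} (hc0 : 0 < c0) (hK : 0 < K6) (hT : 0 < T) (hC : 1 ≤ C)
    (h1 : c0 * (C * T) ≤ ∑ c ∈ Icc 1 C, f c) (h2 : ∑ c ∈ Icc 1 C, f c ^ 2 ≤ K6 * (C * T ^ 2)) :
    c0 ^ 2 / (4 * K6) * C ≤ (#((Icc 1 C).filter (fun c : ℕ => c0 / 2 * T ≤ f c)) : ℝ) := by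
  classical
  obtain ⟨G, hG⟩ : ∃ G : Finset ℕ, G = (Icc 1 C).filter (fun c : ℕ => c0 / 2 * T ≤ f c) := ⟨_, rfl⟩
  rw [← hG]
  have hCR : (1 : ℝ) ≤ C := by exact_mod_cast hC
  have hsplit := sum_filter_add_sum_filter_not (Icc 1 C) (fun c : ℕ => c0 / 2 * T ≤ f c) f
  rw [← hG] at hsplit
  have hrest : ∑ c ∈ (Icc 1 C).filter (fun c : ℕ => ¬ c0 / 2 * T ≤ f c), f c ≤ c0 / 2 * T * C := by
    calc ∑ c ∈ (Icc 1 C).filter (fun c : ℕ => ¬ c0 / 2 * T ≤ f c), f c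
        ≤ ∑ c ∈ (Icc 1 C).filter (fun c : ℕ => ¬ c0 / 2 * T ≤ f c), c0 / 2 * T := by
          refine sum_le_sum fun c hc => ?_
          exact (not_le.1 (mem_filter.1 hc).2).le
      _ ≤ ∑ c ∈ Icc 1 C, c0 / 2 * T := by
          refine sum_le_sum_of_subset_of_nonneg (filter_subset _ _) fun _ _ _ => by positivity
      _ = _ := by rw [sum_const, Nat.card_Icc, nsmul_eq_mul, Nat.add_sub_cancel, mul_comm]
  have hGs : c0 / 2 * (C * T) ≤ ∑ c ∈ G, f c := by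
    have : c0 * (C * T) = c0 / 2 * (C * T) + c0 / 2 * T * C := by ring
    linarith
  have hG2 : ∑ c ∈ G, f c ^ 2 ≤ K6 * (C * T ^ 2) := by
    refine le_trans ?_ h2
    rw [hG]
    exact sum_le_sum_of_subset_of_nonneg (filter_subset _ _) fun _ _ _ => sq_nonneg _
  have hcs : (∑ c ∈ G, f c) ^ 2 ≤ #G * ∑ c ∈ G, f c ^ 2 := sq_sum_le_card_mul_sum_sq
  have h3 : (c0 / 2 * (C * T)) ^ 2 ≤ #G * (K6 * (C * T ^ 2)) := by
    calc (c0 / 2 * (C * T)) ^ 2 ≤ (∑ c ∈ G, f c) ^ 2 := pow_le_pow_left₀ (by positivity) hGs 2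
      _ ≤ #G * ∑ c ∈ G, f c ^ 2 := hcs
      _ ≤ _ := mul_le_mul_of_nonneg_left hG2 (by positivity)
  have h4 : (c0 / 2 * (C * T)) ^ 2 = (c0 ^ 2 / (4 * K6) * C) * (K6 * (C * T ^ 2)) := by field_simp; norm_num
  rw [h4] at h3
  exact le_of_mul_le_mul_right h3 (by positivity)

/-- **A positive proportion of the constant terms.** -/
theorem ph_fin (a : ℕ) (b σ : ℤ) (ha : 1 ≤ a) (hσ : σ = 1 ∨ σ = -1) (ε : ℝ) (hε : 0 < ε) :
    ∃ κ : ℝ, 0 < κ ∧ ∃ x0 : ℕ, ∀ x : ℕ, x0 ≤ x → ∀ C : ℕ, (x : ℝ) ^ (1 / 2 + ε) ≤ C → C ≤ x →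
      κ * C ≤ (#((Icc 1 C).filter (fun c : ℕ => κ * (x / Real.log x) ≤
        (#((Icc 1 x).filter (fun n : ℕ => ((a : ℤ) * (n : ℤ) ^ 2 + b * n + σ * c).toNat.Prime)) : ℝ))) : ℝ) := by
  classical
  obtain ⟨c0, hc0, x1, h1⟩ := fm PSP.t_SP PBL.t_BL PQ5.t_Q5 PTT.t_TT PCUT.t_CUT PTY.t_TY PVA.t_VA PPSI.t_PSI PFE.t_FE
    a b σ ha hσ ε hε
  obtain ⟨K6, hK6, x2, h2⟩ := PSM.t_SM PPH4.t_PH4 a b σ ha hσ
  refine ⟨min (c0 / 2) (c0 ^ 2 / (4 * K6)), by positivity, max (max x1 x2) 3, fun x hx C hC1 hC2 => ?_⟩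
  simp only [max_le_iff] at hx
  obtain ⟨⟨hx1, hx2⟩, hx3⟩ := hx
  have hx3R : (3 : ℝ) ≤ x := by exact_mod_cast hx3
  have hx0 : (0 : ℝ) < x := by linarith
  have hL : 0 < Real.log x := Real.log_pos (by linarith)
  have hC0 : (0 : ℝ) < C := lt_of_lt_of_le (Real.rpow_pos_of_pos hx0 _) hC1
  have hC : 1 ≤ C := by exact_mod_cast hC0
  have hCl : (x : ℝ) ^ (1 / 2 : ℝ) ≤ C :=
    le_trans (Real.rpow_le_rpow_of_exponent_le (by linarith) (by linarith)) hC1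
  have hpz := pz (C := C) (fun c : ℕ =>
    (#((Icc 1 x).filter (fun n : ℕ => ((a : ℤ) * (n : ℤ) ^ 2 + b * n + σ * c).toNat.Prime)) : ℝ))
    (fun c => by positivity) hc0 hK6 (div_pos hx0 hL) hC (h1 x hx1 C hC1 hC2) (h2 x hx2 C hCl hC2)
  have hT : 0 < (x : ℝ) / Real.log x := div_pos hx0 hL
  calc min (c0 / 2) (c0 ^ 2 / (4 * K6)) * C ≤ c0 ^ 2 / (4 * K6) * C :=
        mul_le_mul_of_nonneg_right (min_le_right _ _) hC0.le
    _ ≤ _ := hpz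
    _ ≤ _ := by
        norm_cast
        apply card_le_card
        intro c hc
        rw [mem_filter] at hc ⊢
        refine ⟨hc.1, le_trans ?_ hc.2⟩
        exact mul_le_mul_of_nonneg_right (min_le_left _ _) hT.le

end Pool.Agent.H568.PH
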