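import Mathlib
import Pool.Agent.H568.PH.Fin

/-!
Project PH: pairs `(b, c)`, `|b|, |c| ≤ H`, lengths up to `H^(4-ε)`.
-/

set_option autoImplicit false

namespace Pool.Agent.H568.PH

open Finset Filter Topology

/-- the shift -/
def shf (a c : ℕ) : ℕ := Nat.sqrt (c / a) + 1

lemma shf_facts {a c H : ℕ} (ha : 1 ≤ a) (hH : 4 * a ≤ H) (hc : 16 * a * c ≤ H ^ 2) :
    c < a * shf a c ^ 2 ∧ a * shf a c ^ 2 ≤ c + 2 * a * shf a c ∧ 2 * a * shf a c ≤ H := by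
  obtain ⟨t, ht⟩ : ∃ t : ℕ, t = Nat.sqrt (c / a) := ⟨_, rfl⟩
  have hs : shf a c = t + 1 := by rw [shf, ← ht]
  have h1 : t * t ≤ c / a := by rw [ht]; exact Nat.sqrt_le _
  have h2 : c / a < (t + 1) * (t + 1) := by rw [ht]; exact Nat.lt_succ_sqrt _
  have h3 : a * (t * t) ≤ c := (Nat.mul_le_mul_left a h1).trans (Nat.mul_div_le c a)
  have h4 : c < a * ((t + 1) * (t + 1)) := by
    rw [mul_comm]
    exact (Nat.div_lt_iff_lt_mul (by omega)).1 h2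
  rw [hs]
  refine ⟨by rw [sq]; exact h4, by nlinarith, ?_⟩
  have h5 : (4 * a * t) ^ 2 ≤ H ^ 2 := by
    calc (4 * a * t) ^ 2 = 16 * a * (a * (t * t)) := by ring
      _ ≤ 16 * a * c := Nat.mul_le_mul_left _ h3
      _ ≤ _ := hc
  have h6 : 4 * a * t ≤ H := by
    by_contra hcon
    have := Nat.pow_lt_pow_left (not_le.1 hcon) (two_ne_zero)
    omega
  nlinarith

lemma ev_pair (κ : ℝ) (hκ : 0 < κ) : ∃ N0 : ℕ, ∀ N : ℕ, N0 ≤ N → √(N : ℝ) ≤ κ * (N / Real.log N) := by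
  obtain ⟨N1, h1⟩ := evP _ (ev_logpow 1 (1 / κ) (1 / 2) (by norm_num))
  refine ⟨N1 + 3, fun N hN => ?_⟩
  have h := h1 N (by omega)
  have hN3 : (3 : ℝ) ≤ N := by exact_mod_cast (by omega : 3 ≤ N)
  have hL : 0 < Real.log N := Real.log_pos (by linarith)
  rw [← Real.sqrt_eq_rpow, pow_one] at h
  have hss : √(N : ℝ) * √(N : ℝ) = N := Real.mul_self_sqrt (by linarith)
  have hs0 : 0 < √(N : ℝ) := Real.sqrt_pos.2 (by linarith)
  rw [← mul_div_assoc, le_div_iff₀ hL]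
  have h2 : Real.log N ≤ κ * √(N : ℝ) := by
    have : Real.log N = κ * (1 / κ * Real.log N) := by field_simp
    rw [this]
    exact mul_le_mul_of_nonneg_left h hκ.le
  calc √(N : ℝ) * Real.log N ≤ √(N : ℝ) * (κ * √(N : ℝ)) := mul_le_mul_of_nonneg_left h2 hs0.le
    _ = κ * (√(N : ℝ) * √(N : ℝ)) := by ring
    _ = _ := by rw [hss]

/-- **A positive proportion of the pairs.** -/
theorem ph_pair (a : ℕ) (ha : 1 ≤ a) (ε : ℝ) (hε : 0 < ε) :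
    ∃ κ : ℝ, 0 < κ ∧ ∃ H0 : ℕ, ∀ H : ℕ, H0 ≤ H → ∀ N : ℕ, H ^ 2 ≤ N → (N : ℝ) ≤ (H : ℝ) ^ (4 - ε) →
      κ * (H : ℝ) ^ 2 ≤ (#((Icc (-(H : ℤ)) H ×ˢ Icc (-(H : ℤ)) H).filter (fun q : ℤ × ℤ => κ * (N / Real.log N) ≤
        (#((Ioc 0 N).filter (fun m : ℕ => ((a : ℤ) * (m : ℤ) ^ 2 + q.1 * m + q.2).toNat.Prime)) : ℝ))) : ℝ) := by
  classical
  obtain ⟨κ, hκ, x0, h⟩ := ph_fin a 0 (-1) ha (Or.inr rfl) (ε / 16) (by positivity)
  obtain ⟨N2, hN2⟩ := ev_pair (κ / 2) (by positivity)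
  have haR : (1 : ℝ) ≤ a := by exact_mod_cast ha
  have hev : ∀ᶠ y : ℝ in Filter.atTop, 32 * (a : ℝ) ≤ y ^ (ε / 4) :=
    (tendsto_rpow_atTop (by positivity : 0 < ε / 4)).eventually_ge_atTop _
  obtain ⟨H1, hH1⟩ := evP _ hev
  refine ⟨min (κ / 2) (κ / (32 * a)), by positivity, max (max H1 (32 * a)) (max x0 N2), ?_⟩
  intro H hH N hHN hNH
  simp only [max_le_iff] at hH
  obtain ⟨⟨hHa, hHb⟩, hHc, hHd⟩ := hH
  have hH1' := hH1 H hHa
  have hH32 : 32 ≤ H := le_trans (by omega) hHb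
  have hHR : (32 : ℝ) ≤ H := by exact_mod_cast hH32
  have hH0 : (0 : ℝ) < H := by linarith
  have hHN' : H ≤ N := le_trans (by nlinarith) hHN
  have hNR : (32 : ℝ) ≤ N := by exact_mod_cast (hH32.trans hHN')
  have hN0 : (0 : ℝ) < N := by linarith
  obtain ⟨C, hC⟩ : ∃ C : ℕ, C = H ^ 2 / (16 * a) := ⟨_, rfl⟩
  have hCu : 16 * a * C ≤ H ^ 2 := by rw [hC]; exact Nat.mul_div_le _ _
  have hCN : C ≤ N := by
    rw [hC]
    exact (Nat.div_le_self _ _).trans hHN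
  have hClow : (H : ℝ) ^ 2 / (32 * a) ≤ C := by
    have h1 : H ^ 2 < 16 * a * (C + 1) := by
      rw [hC, mul_comm]
      exact (Nat.div_lt_iff_lt_mul (by omega)).1 (Nat.lt_succ_self _)
    have h2 : ((H ^ 2 : ℕ) : ℝ) < ((16 * a * (C + 1) : ℕ) : ℝ) := by exact_mod_cast h1
    push_cast at h2
    have h3 : (32 * a : ℝ) ≤ H := by exact_mod_cast hHb
    rw [div_le_iff₀ (by positivity)]
    nlinarith
  have hCl : (N : ℝ) ^ (1 / 2 + ε / 16) ≤ C := by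
    refine le_trans ?_ hClow
    have h1 : (N : ℝ) ^ (1 / 2 + ε / 16) ≤ ((H : ℝ) ^ (4 - ε)) ^ (1 / 2 + ε / 16) :=
      Real.rpow_le_rpow hN0.le hNH (by positivity)
    have h2 : ((H : ℝ) ^ (4 - ε)) ^ (1 / 2 + ε / 16) ≤ (H : ℝ) ^ (2 - ε / 4) := by
      rw [← Real.rpow_mul hH0.le]
      apply Real.rpow_le_rpow_of_exponent_le (by linarith)
      nlinarith [sq_nonneg ε]
    refine (h1.trans h2).trans ?_
    rw [Real.rpow_sub hH0, div_le_div_iff₀ (Real.rpow_pos_of_pos hH0 _) (by positivity)]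
    have : (H : ℝ) ^ (2 : ℝ) = (H : ℝ) ^ 2 := by exact_mod_cast Real.rpow_natCast (H : ℝ) 2
    rw [this]
    exact mul_le_mul_of_nonneg_left hH1' (by positivity)
  have hmain := h N (hHc.trans hHN') C hCl hCN
  obtain ⟨G, hG, hmain⟩ : ∃ G : Finset ℕ, (∀ c ∈ G, 1 ≤ c ∧ c ≤ C ∧ κ * (N / Real.log N) ≤
      (#((Icc 1 N).filter (fun n : ℕ => ((a : ℤ) * (n : ℤ) ^ 2 + (0 : ℤ) * n + (-1 : ℤ) * c).toNat.Prime)) : ℝ)) ∧ κ * C ≤ #G := by
    refine ⟨_, fun c hc => ?_, hmain⟩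
    rw [mem_filter, mem_Icc] at hc
    exact ⟨hc.1.1, hc.1.2, hc.2⟩
  obtain ⟨φ, hφ⟩ : ∃ φ : ℕ → ℤ × ℤ, φ = fun c : ℕ => (2 * (a : ℤ) * shf a c, (a : ℤ) * (shf a c : ℤ) ^ 2 - c) := ⟨_, rfl⟩
  have hinj : Set.InjOn φ G := by
    intro c _ c' _ hcc
    rw [hφ] at hcc
    simp only [Prod.mk.injEq] at hcc
    obtain ⟨e1, e2⟩ := hcc
    have ha0 : (2 * (a : ℤ)) ≠ 0 := by omega
    have e3 : (shf a c : ℤ) = shf a c' := mul_left_cancel₀ ha0 e1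
    rw [e3] at e2
    have : (c : ℤ) = c' := by linarith
    exact_mod_cast this
  have hsub : G.image φ ⊆ (Icc (-(H : ℤ)) H ×ˢ Icc (-(H : ℤ)) H).filter (fun q : ℤ × ℤ => min (κ / 2) (κ / (32 * a)) * (N / Real.log N) ≤
        (#((Ioc 0 N).filter (fun m : ℕ => ((a : ℤ) * (m : ℤ) ^ 2 + q.1 * m + q.2).toNat.Prime)) : ℝ)) := by
    intro q hq
    obtain ⟨c, hc, rfl⟩ := mem_image.1 hq
    obtain ⟨hc1, hc2, hc3⟩ := hG c hc
    obtain ⟨f1, f2, f3⟩ := shf_facts (a := a) (c := c) (H := H) ha (by omega) (le_trans (Nat.mul_le_mul_left _ hc2) hCu)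
    obtain ⟨s, hs⟩ : ∃ s : ℕ, s = shf a c := ⟨_, rfl⟩
    rw [← hs] at f1 f2 f3
    have g1 : (c : ℤ) < a * (s : ℤ) ^ 2 := by exact_mod_cast f1
    have g2 : (a : ℤ) * (s : ℤ) ^ 2 ≤ c + 2 * a * s := by exact_mod_cast f2
    have g3 : 2 * (a : ℤ) * s ≤ H := by exact_mod_cast f3
    have hs0 : (0 : ℤ) ≤ 2 * (a : ℤ) * s := by positivity
    rw [mem_filter, mem_product, mem_Icc, mem_Icc, hφ]
    simp only
    rw [← hs]
    refine ⟨⟨⟨by omega, g3⟩, by omega, by omega⟩, ?_⟩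
    -- the count
    have hsH : s ≤ H := le_trans (Nat.le_mul_of_pos_left s (by omega : 0 < 2 * a)) f3
    have hsN : (s : ℝ) ≤ √(N : ℝ) := by
      apply Real.le_sqrt_of_sq_le
      have : ((s ^ 2 : ℕ) : ℝ) ≤ ((N : ℕ) : ℝ) := by
        exact_mod_cast (Nat.pow_le_pow_left hsH 2).trans hHN
      push_cast at this
      exact this
    have hcount : #((Icc 1 N).filter (fun n : ℕ => ((a : ℤ) * (n : ℤ) ^ 2 + (0 : ℤ) * n + (-1 : ℤ) * c).toNat.Prime)) ≤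
        #((Ioc 0 N).filter (fun m : ℕ => ((a : ℤ) * (m : ℤ) ^ 2 + 2 * (a : ℤ) * s * m + ((a : ℤ) * (s : ℤ) ^ 2 - c)).toNat.Prime)) + s := by
      have hsb : (Icc 1 N).filter (fun n : ℕ => ((a : ℤ) * (n : ℤ) ^ 2 + (0 : ℤ) * n + (-1 : ℤ) * c).toNat.Prime) ⊆
          ((Ioc 0 N).filter (fun m : ℕ => ((a : ℤ) * (m : ℤ) ^ 2 + 2 * (a : ℤ) * s * m + ((a : ℤ) * (s : ℤ) ^ 2 - c)).toNat.Prime)).image (fun m => m + s) ∪
            Icc 1 s := by
        intro n hn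
        rw [mem_filter, mem_Icc] at hn
        rw [mem_union, mem_image, mem_Icc]
        by_cases hns : n ≤ s
        · exact Or.inr ⟨hn.1.1, hns⟩
        · refine Or.inl ⟨n - s, ?_, by omega⟩
          rw [mem_filter, mem_Ioc]
          refine ⟨⟨by omega, by omega⟩, ?_⟩
          have e : ((n - s : ℕ) : ℤ) = n - s := by push_cast [Nat.cast_sub (by omega : s ≤ n)]; ring
          rw [e]
          have e2 : (a : ℤ) * ((n : ℤ) - s) ^ 2 + 2 * a * s * (n - s) + (a * (s : ℤ) ^ 2 - c) =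
              a * (n : ℤ) ^ 2 + (0 : ℤ) * n + (-1 : ℤ) * c := by ring
          rw [e2]
          exact hn.2
      refine (card_le_card hsb).trans ((card_union_le _ _).trans ?_)
      rw [Nat.card_Icc]
      exact add_le_add card_image_le (by omega)
    have hcountR : (#((Icc 1 N).filter (fun n : ℕ => ((a : ℤ) * (n : ℤ) ^ 2 + (0 : ℤ) * n + (-1 : ℤ) * c).toNat.Prime)) : ℝ) ≤
        (#((Ioc 0 N).filter (fun m : ℕ => ((a : ℤ) * (m : ℤ) ^ 2 + 2 * (a : ℤ) * s * m + ((a : ℤ) * (s : ℤ) ^ 2 - c)).toNat.Prime)) : ℝ) + s := by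
      exact_mod_cast hcount
    have h2 := hN2 N (hHd.trans hHN')
    have hT : 0 ≤ (N : ℝ) / Real.log N := by
      have : 0 ≤ Real.log N := Real.log_nonneg (by linarith)
      positivity
    have h3 : min (κ / 2) (κ / (32 * a)) * (N / Real.log N) ≤ κ / 2 * (N / Real.log N) :=
      mul_le_mul_of_nonneg_right (min_le_left _ _) hT
    have h4 : κ * (N / Real.log N) = κ / 2 * (N / Real.log N) + κ / 2 * (N / Real.log N) := by ring
    linarith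
  calc min (κ / 2) (κ / (32 * a)) * (H : ℝ) ^ 2 ≤ κ / (32 * a) * (H : ℝ) ^ 2 :=
        mul_le_mul_of_nonneg_right (min_le_right _ _) (by positivity)
    _ = κ * ((H : ℝ) ^ 2 / (32 * a)) := by ring
    _ ≤ κ * C := mul_le_mul_of_nonneg_left hClow hκ.le
    _ ≤ #G := hmain
    _ = #(G.image φ) := by rw [card_image_of_injOn hinj]
    _ ≤ _ := by exact_mod_cast card_le_card hsub

end Pool.Agent.H568.PH
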