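import Mathlib
import Pool.Agent.H568.PH.Fin

/-!
Project PH: the constant terms in the admissible classes.
-/

set_option autoImplicit false

namespace Pool.Agent.H568.PH

open Finset Filter Topology

/-- A positive proportion of the constant terms; they are in the classes without a fixed divisor. -/
theorem ph_sub (a b : ℕ) (ha : 1 ≤ a) (Q : ℕ → Prop)
    (hQ : ∀ c : ℕ, 2 ≤ c → ¬ Q c → ∀ n : ℕ, 1 ≤ n → ¬ (a * n ^ 2 + b * n + c).Prime) (ε : ℝ) (hε : 0 < ε) :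
    ∃ κ : ℝ, 0 < κ ∧ ∃ x0 : ℕ, ∀ x : ℕ, x0 ≤ x → ∀ C : ℕ, (x : ℝ) ^ (1 / 2 + ε) ≤ C → C ≤ x →
      ∃ G : Finset ℕ, κ * C ≤ (#G : ℝ) ∧ ∀ c ∈ G, 2 ≤ c ∧ c ≤ C ∧ Q c ∧ κ * (x / Real.log x) ≤
        (#((Icc 1 x).filter (fun n : ℕ => (a * n ^ 2 + b * n + c).Prime)) : ℝ) := by
  classical
  obtain ⟨κ, hκ, x1, h1⟩ := ph_fin a b 1 ha (Or.inl rfl) ε hε
  obtain ⟨M, hM⟩ := exists_nat_ge (2 / κ)
  refine ⟨κ / 2, by positivity, max x1 (M ^ 2 + 3), fun x hx C hC1 hC2 => ?_⟩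
  simp only [max_le_iff] at hx
  obtain ⟨hx1, hxM⟩ := hx
  have hx3R : (3 : ℝ) ≤ x := by exact_mod_cast (by omega : 3 ≤ x)
  have hx0 : (0 : ℝ) < x := by linarith
  have hL : 0 < Real.log x := Real.log_pos (by linarith)
  have hT : 0 < (x : ℝ) / Real.log x := div_pos hx0 hL
  have hCM : 2 / κ ≤ C := by
    refine hM.trans (le_trans ?_ hC1)
    refine le_trans ?_ (Real.rpow_le_rpow_of_exponent_le (by linarith) (by linarith : (1 / 2 : ℝ) ≤ 1 / 2 + ε))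
    rw [← Real.sqrt_eq_rpow]
    apply Real.le_sqrt_of_sq_le
    have : ((M ^ 2 : ℕ) : ℝ) ≤ x := by exact_mod_cast (by omega : M ^ 2 ≤ x)
    push_cast at this
    exact this
  have h := h1 x hx1 C hC1 hC2
  obtain ⟨G, hG, hcard⟩ : ∃ G : Finset ℕ, (∀ c ∈ G, 1 ≤ c ∧ c ≤ C ∧ κ * (x / Real.log x) ≤
      (#((Icc 1 x).filter (fun n : ℕ => ((a : ℤ) * (n : ℤ) ^ 2 + (b : ℤ) * n + (1 : ℤ) * c).toNat.Prime)) : ℝ)) ∧ κ * C ≤ #G := by
    refine ⟨_, fun c hc => ?_, h⟩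
    rw [mem_filter, mem_Icc] at hc
    exact ⟨hc.1.1, hc.1.2, hc.2⟩
  refine ⟨G.erase 1, ?_, fun c hc => ?_⟩
  · have h2 : (#G : ℝ) ≤ #(G.erase 1) + 1 := by
      have := pred_card_le_card_erase (s := G) (a := 1)
      exact_mod_cast (by omega : #G ≤ #(G.erase 1) + 1)
    have h3 : 1 ≤ κ / 2 * C := by
      have := mul_le_mul_of_nonneg_left hCM (by positivity : 0 ≤ κ / 2)
      have e : κ / 2 * (2 / κ) = 1 := by field_simp
      linarith
    linarith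
  · rw [mem_erase] at hc
    obtain ⟨g1, g2, g3⟩ := hG c hc.2
    have hc2 : 2 ≤ c := by omega
    have e : (Icc 1 x).filter (fun n : ℕ => ((a : ℤ) * (n : ℤ) ^ 2 + (b : ℤ) * n + (1 : ℤ) * c).toNat.Prime) =
        (Icc 1 x).filter (fun n : ℕ => (a * n ^ 2 + b * n + c).Prime) := by
      apply filter_congr
      intro n _
      have e1 : (a : ℤ) * (n : ℤ) ^ 2 + (b : ℤ) * n + (1 : ℤ) * c = ((a * n ^ 2 + b * n + c : ℕ) : ℤ) := by push_cast; ring
      rw [e1, Int.toNat_natCast]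
    rw [e] at g3
    refine ⟨hc2, g2, ?_, le_trans (mul_le_mul_of_nonneg_right (by linarith) hT.le) g3⟩
    by_contra hcon
    have e0 : (Icc 1 x).filter (fun n : ℕ => (a * n ^ 2 + b * n + c).Prime) = ∅ := by
      apply filter_eq_empty_iff.2
      intro n hn
      exact hQ c hc2 hcon n (mem_Icc.1 hn).1
    rw [e0, card_empty] at g3
    have : 0 < κ * (x / Real.log x) := by positivity
    push_cast at g3
    linarith

end Pool.Agent.H568.PH
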